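import Pool.Agent.Helper95.PM.Stmts
import Pool.Agent.Helper88.PW.TUP

/-!
# Molecules, row TUPM: a priori bounds of the three parts of the energy
-/

set_option autoImplicit false

namespace Pool.Agent.Helper95.PW

open MeasureTheory Filter

theorem TUPM_one (h2 : ST_INTM) {n M : ℕ} (X : Fin M → R3) (Z : Fin M → ℝ) (u : Wf n)
    (hu : Sm u) : one (pot X Z) u = ∑ j, Z j * one (fun y => 1 / nr (y - X j)) u := by
  unfold one
  have e : ∀ s, ∫ x : Cf n, (∑ k, pot X Z (x k)) * u s x ^ 2 =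
      ∑ j, Z j * ∫ x : Cf n, (∑ k, 1 / nr (x k - X j)) * u s x ^ 2 := by
    intro s
    have hi : ∀ j, Integrable (fun x : Cf n => Z j * ((∑ k, 1 / nr (x k - X j)) * u s x ^ 2)) := by
      intro j
      obtain ⟨i1, -, -, -⟩ := h2 n 1 (fun _ => X j) (fun _ => 1) (u s) (u s) (hu s).1 (hu s).2
        (hu s).1 (hu s).2
      refine (i1.const_mul (Z j)).congr (Eventually.of_forall fun x => ?_)
      simp only [pot, Finset.univ_unique, Finset.sum_const, Finset.card_singleton, one_smul]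
      ring
    have e1 : (fun x : Cf n => (∑ k, pot X Z (x k)) * u s x ^ 2) = fun x =>
        ∑ j, Z j * ((∑ k, 1 / nr (x k - X j)) * u s x ^ 2) := by
      funext x
      unfold pot
      rw [Finset.sum_comm, Finset.sum_mul]
      refine Finset.sum_congr rfl fun j _ => ?_
      rw [← mul_assoc, Finset.mul_sum]
      congr 1
      refine Finset.sum_congr rfl fun k _ => ?_
      ring
    rw [e1, integral_finsetSum _ fun j _ => hi j]
    refine Finset.sum_congr rfl fun j _ => ?_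
    rw [integral_const_mul]
  simp only [e]
  rw [Finset.sum_comm]
  refine Finset.sum_congr rfl fun j _ => ?_
  rw [Finset.mul_sum]

theorem st_TUPM (hATT : ST_ATTM) (hINT : ST_INTM) : ST_TUPM := by
  obtain ⟨C, hC, h⟩ := hATT
  refine ⟨3 + C ^ 2 + C * Real.sqrt (2 + C ^ 2), by positivity, ?_⟩
  intro n M X Z u hn hZ hu ha hs hQ
  have hn' : (1 : ℝ) ≤ n := by exact_mod_cast hn
  have hn0 : (0 : ℝ) < n := by linarith
  have ht : (1 : ℝ) ≤ (n : ℝ) ^ (7 / 6 : ℝ) := Real.one_le_rpow hn' (by norm_num)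
  have ht2 : ((n : ℝ) ^ (7 / 6 : ℝ)) ^ 2 = (n : ℝ) ^ (7 / 3 : ℝ) := by
    rw [← Real.rpow_natCast, ← Real.rpow_mul hn0.le]
    norm_num
  have ht1 : (n : ℝ) * (n : ℝ) ^ (1 / 6 : ℝ) = (n : ℝ) ^ (7 / 6 : ℝ) := by
    nth_rewrite 1 [← Real.rpow_one (n : ℝ)]
    rw [← Real.rpow_add hn0]
    norm_num
  have h2 : one (pot X Z) u ≤ C * (n : ℝ) ^ (7 / 6 : ℝ) * Real.sqrt (kin u) := by
    rw [TUPM_one hINT X Z u hu]
    calc ∑ j, Z j * one (fun y => 1 / nr (y - X j)) u
        ≤ ∑ j, Z j * (C * (n : ℝ) ^ (1 / 6 : ℝ) * Real.sqrt (kin u)) :=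
          Finset.sum_le_sum fun j _ =>
            mul_le_mul_of_nonneg_left (h n u (X j) hn hu ha hs) (hZ.1 j)
      _ = (n : ℝ) * (C * (n : ℝ) ^ (1 / 6 : ℝ) * Real.sqrt (kin u)) := by
          rw [← Finset.sum_mul, hZ.2]
      _ = C * (n : ℝ) ^ (7 / 6 : ℝ) * Real.sqrt (kin u) := by
          rw [← ht1]
          ring
  have hQ' : kin u + pair u - one (pot X Z) u ≤ 1 := hQ
  have h4 := TUP_aux hC ht (TUP_kin_nonneg u) (TUP_pair_nonneg u) hQ' h2
  rw [ht2] at h4
  exact h4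

end Pool.Agent.Helper95.PW
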